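import Mathlib

/-!
# MP_81f2fa_al : support size of `SL(2,ℂ)` trace polynomials of words, Question Q1

`M(n) = Θ(n³)`.
-/

namespace Pool.Agent.Results.MP_81f2fa_al.CubicSupport

open Matrix MvPolynomial

/-- The group `SL(2,ℂ)`. -/
abbrev SL := Matrix.SpecialLinearGroup (Fin 2) ℂ

/-- The trace of an element of `SL(2,ℂ)`. -/
noncomputable def tr (A : SL) : ℂ := Matrix.trace (A : Matrix (Fin 2) (Fin 2) ℂ)

/-- `f` is a trace polynomial of `w`: `tr w(A,B) = f(tr A, tr B, tr AB)` for all `A, B`. -/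
def IsTracePoly (w : FreeGroup (Fin 2)) (f : MvPolynomial (Fin 3) ℤ) : Prop :=
  ∀ A B : SL, tr (FreeGroup.lift ![A, B] w) = MvPolynomial.aeval ![tr A, tr B, tr (A * B)] f

/-! ### Matrix identities -/

lemma tr_eq (A : SL) : tr A = A.1 0 0 + A.1 1 1 := by
  rw [tr, Matrix.trace_fin_two]

lemma det_eq (A : SL) : A.1 0 0 * A.1 1 1 - A.1 0 1 * A.1 1 0 = 1 := by
  have := A.2
  rwa [Matrix.det_fin_two] at this

lemma ch (A : SL) : A.1 * A.1 = tr A • A.1 - 1 := by
  have h := det_eq A
  ext i j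
  rw [tr_eq]
  fin_cases i <;> fin_cases j <;>
    simp [Matrix.mul_apply, Fin.sum_univ_two] <;> first | ring1 | linear_combination (-1 : ℂ) * h

lemma ba (A B : SL) : B.1 * A.1 =
    tr A • B.1 + tr B • A.1 + (tr (A * B) - tr A * tr B) • (1 : Matrix (Fin 2) (Fin 2) ℂ)
      - A.1 * B.1 := by
  ext i j
  rw [tr_eq, tr_eq, tr_eq]
  fin_cases i <;> fin_cases j <;>
    simp [Matrix.mul_apply, Fin.sum_univ_two] <;> ring

lemma inv_eq (A : SL) : (A⁻¹).1 = tr A • (1 : Matrix (Fin 2) (Fin 2) ℂ) - A.1 := by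
  rw [tr_eq]
  rw [Matrix.SpecialLinearGroup.coe_inv, Matrix.adjugate_fin_two]
  ext i j
  fin_cases i <;> fin_cases j <;> simp

/-! ### Surjectivity of the trace map -/

lemma tr_mul (A B : SL) : tr (A * B) = A.1 0 0 * B.1 0 0 + A.1 0 1 * B.1 1 0 +
    A.1 1 0 * B.1 0 1 + A.1 1 1 * B.1 1 1 := by
  rw [tr_eq, Matrix.SpecialLinearGroup.coe_mul]
  simp only [Matrix.mul_apply, Fin.sum_univ_two]
  ring

lemma exists_traces (x y z : ℂ) : ∃ A B : SL, tr A = x ∧ tr B = y ∧ tr (A * B) = z := by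
  obtain ⟨s, hs⟩ : ∃ s : ℂ, s * s - z * s + 1 = 0 := by
    obtain ⟨r, hr⟩ := IsAlgClosed.exists_pow_nat_eq (z ^ 2 - 4) (n := 2) (by norm_num)
    refine ⟨(z + r) / 2, ?_⟩
    linear_combination (1 / 4 : ℂ) * hr
  have hs0 : s ≠ 0 := by
    rintro rfl
    simp at hs
  have hz : s + s⁻¹ = z := by
    field_simp
    linear_combination hs
  refine ⟨⟨!![x, -1; 1, 0], by simp [Matrix.det_fin_two]⟩,
    ⟨!![0, s; -s⁻¹, y], by simp [Matrix.det_fin_two, hs0]⟩, ?_, ?_, ?_⟩
  · simp [tr, Matrix.trace_fin_two]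
  · simp [tr, Matrix.trace_fin_two]
  · refine (tr_mul _ _).trans ?_
    simp
    linear_combination hz

/-- Uniqueness in the Fricke–Vogt theorem. -/
theorem tracePoly_unique {w : FreeGroup (Fin 2)} {f g : MvPolynomial (Fin 3) ℤ}
    (hf : IsTracePoly w f) (hg : IsTracePoly w g) : f = g := by
  apply MvPolynomial.map_injective (Int.castRingHom ℂ) Int.cast_injective
  apply MvPolynomial.funext
  intro v
  obtain ⟨A, B, h0, h1, h2⟩ := exists_traces (v 0) (v 1) (v 2)
  have hv : v = ![tr A, tr B, tr (A * B)] := by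
    ext i; fin_cases i <;> simp [h0, h1, h2]
  have e1 := hf A B
  have e2 := hg A B
  rw [MvPolynomial.eval_map, MvPolynomial.eval_map, hv]
  rw [e1] at e2
  exact e2

/-! ### Existence with degree bounds -/

/-- the induction statement -/
def Rep (L : List (Fin 2 × Bool)) (al be ga de : MvPolynomial (Fin 3) ℤ) : Prop :=
  ∀ A B : SL, (FreeGroup.lift ![A, B] (FreeGroup.mk L)).1 =
    (aeval ![tr A, tr B, tr (A * B)] al : ℂ) • (1 : Matrix (Fin 2) (Fin 2) ℂ) +
    (aeval ![tr A, tr B, tr (A * B)] be : ℂ) • A.1 +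
    (aeval ![tr A, tr B, tr (A * B)] ga : ℂ) • B.1 +
    (aeval ![tr A, tr B, tr (A * B)] de : ℂ) • (A.1 * B.1)

lemma lift_cons (A B : SL) (i : Fin 2) (b : Bool) (L : List (Fin 2 × Bool)) :
    FreeGroup.lift ![A, B] (FreeGroup.mk ((i, b) :: L)) =
      (cond b (![A, B] i) (![A, B] i)⁻¹) * FreeGroup.lift ![A, B] (FreeGroup.mk L) := by
  simp [FreeGroup.lift_mk]

lemma rep_a {L : List (Fin 2 × Bool)} {al be ga de : MvPolynomial (Fin 3) ℤ}
    (h : Rep L al be ga de) :
    Rep ((0, true) :: L) (-be) (al + X 0 * be) (-de) (ga + X 0 * de) := by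
  intro A B
  rw [lift_cons]
  simp only [cond_true, Matrix.cons_val_zero, Matrix.SpecialLinearGroup.coe_mul]
  rw [h A B]
  simp only [mul_add, Matrix.mul_smul, ← mul_assoc, ch A, mul_one, sub_mul, one_mul,
    Matrix.smul_mul, map_add, map_neg, map_mul, aeval_X, Matrix.cons_val_zero]
  module

lemma rep_b {L : List (Fin 2 × Bool)} {al be ga de : MvPolynomial (Fin 3) ℤ}
    (h : Rep L al be ga de) :
    Rep ((1, true) :: L) (be * (X 2 - X 0 * X 1) - ga - X 0 * de) (X 1 * be + de)
      (al + X 0 * be + X 1 * ga + X 2 * de) (-be) := by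
  intro A B
  rw [lift_cons]
  simp only [cond_true, Matrix.cons_val_one, Matrix.SpecialLinearGroup.coe_mul]
  rw [h A B]
  simp only [mul_add, Matrix.mul_smul, ← mul_assoc, ba A B, ch B, mul_one, sub_mul, add_mul,
    one_mul, Matrix.smul_mul, map_add, map_neg, map_mul, map_sub, aeval_X, Matrix.cons_val_zero,
    Matrix.cons_val_one, Matrix.cons_val]
  rw [mul_assoc A.1 B.1 B.1, ch B, mul_sub, Matrix.mul_smul, mul_one]
  module

lemma rep_a' {L : List (Fin 2 × Bool)} {al be ga de : MvPolynomial (Fin 3) ℤ}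
    (h : Rep L al be ga de) :
    Rep ((0, false) :: L) (X 0 * al + be) (-al) (X 0 * ga + de) (-ga) := by
  intro A B
  rw [lift_cons]
  simp only [cond_false, Matrix.cons_val_zero, Matrix.SpecialLinearGroup.coe_mul]
  rw [h A B, inv_eq]
  simp only [mul_add, Matrix.mul_smul, ← mul_assoc, ch A, mul_one, sub_mul, one_mul,
    Matrix.smul_mul, map_add, map_neg, map_mul, aeval_X, Matrix.cons_val_zero]
  module

lemma rep_b' {L : List (Fin 2 × Bool)} {al be ga de : MvPolynomial (Fin 3) ℤ}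
    (h : Rep L al be ga de) :
    Rep ((1, false) :: L) (X 1 * al - be * (X 2 - X 0 * X 1) + ga + X 0 * de) (-de)
      (-al - X 0 * be - X 2 * de) (X 1 * de + be) := by
  intro A B
  rw [lift_cons]
  simp only [cond_false, Matrix.cons_val_one, Matrix.SpecialLinearGroup.coe_mul]
  rw [h A B, inv_eq]
  simp only [mul_add, Matrix.mul_smul, ← mul_assoc, ba A B, ch B, mul_one, sub_mul, add_mul,
    one_mul, Matrix.smul_mul, map_add, map_neg, map_mul, map_sub, aeval_X, Matrix.cons_val_zero,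
    Matrix.cons_val_one, Matrix.cons_val]
  rw [mul_assoc A.1 B.1 B.1, ch B, mul_sub, Matrix.mul_smul, mul_one]
  module

/-- degree bound -/
def Deg (d : ℕ) (p : MvPolynomial (Fin 3) ℤ) : Prop := p.totalDegree ≤ d

lemma Deg.add {d : ℕ} {p q : MvPolynomial (Fin 3) ℤ} (hp : Deg d p) (hq : Deg d q) :
    Deg d (p + q) := (totalDegree_add _ _).trans (max_le hp hq)
lemma Deg.sub {d : ℕ} {p q : MvPolynomial (Fin 3) ℤ} (hp : Deg d p) (hq : Deg d q) :
    Deg d (p - q) := (totalDegree_sub _ _).trans (max_le hp hq)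
lemma Deg.neg {d : ℕ} {p : MvPolynomial (Fin 3) ℤ} (hp : Deg d p) :
    Deg d (-p) := by unfold Deg at *; rwa [totalDegree_neg]
lemma Deg.mul {d e : ℕ} {p q : MvPolynomial (Fin 3) ℤ} (hp : Deg d p) (hq : Deg e q) :
    Deg (d + e) (p * q) := (totalDegree_mul _ _).trans (add_le_add hp hq)
lemma Deg.mono {d e : ℕ} {p : MvPolynomial (Fin 3) ℤ} (hp : Deg d p) (h : d ≤ e) :
    Deg e p := le_trans hp h
lemma Deg.X (i : Fin 3) : Deg 1 (X i : MvPolynomial (Fin 3) ℤ) := (totalDegree_X i).le

lemma exists_rep (L : List (Fin 2 × Bool)) : ∃ al be ga de : MvPolynomial (Fin 3) ℤ,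
    Rep L al be ga de ∧ Deg (2 * L.length) al ∧ Deg (2 * L.length) be ∧ Deg (2 * L.length) ga ∧
      Deg (2 * L.length) de := by
  induction L with
  | nil =>
    refine ⟨1, 0, 0, 0, ?_, ?_, ?_, ?_, ?_⟩
    · intro A B
      rw [← FreeGroup.one_eq_mk]
      simp
    all_goals simp [Deg]
  | cons x L ih =>
    obtain ⟨al, be, ga, de, h, h1, h2, h3, h4⟩ := ih
    have hlen : 2 * (x :: L).length = 2 * L.length + 2 := by simp; ring
    rw [hlen]
    have u1 := h1.mono (Nat.le_add_right _ 2)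
    have u2 := h2.mono (Nat.le_add_right _ 2)
    have u3 := h3.mono (Nat.le_add_right _ 2)
    have u4 := h4.mono (Nat.le_add_right _ 2)
    have X1 : ∀ (i : Fin 3) {p : MvPolynomial (Fin 3) ℤ}, Deg (2 * L.length) p →
        Deg (2 * L.length + 2) (X i * p) := by
      intro i p hp
      exact ((Deg.X i).mul hp).mono (by omega)
    have X2 : ∀ {p : MvPolynomial (Fin 3) ℤ}, Deg (2 * L.length) p →
        Deg (2 * L.length + 2) (p * (X 2 - X 0 * X 1)) := by
      intro p hp
      exact hp.mul (((Deg.X 2).mono (by omega)).sub ((Deg.X 0).mul (Deg.X 1)))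
    obtain ⟨i, b⟩ := x
    fin_cases i <;> cases b
    · exact ⟨_, _, _, _, rep_a' h, (X1 0 h1).add u2, u1.neg, (X1 0 h3).add u4, u3.neg⟩
    · exact ⟨_, _, _, _, rep_a h, u2.neg, u1.add (X1 0 h2), u4.neg, u3.add (X1 0 h4)⟩
    · exact ⟨_, _, _, _, rep_b' h, (((X1 1 h1).sub (X2 h2)).add u3).add (X1 0 h4), u4.neg,
        (u1.neg.sub (X1 0 h2)).sub (X1 2 h4), (X1 1 h4).add u2⟩
    · exact ⟨_, _, _, _, rep_b h, ((X2 h2).sub u3).sub (X1 0 h4), (X1 1 h2).add u4,
        ((u1.add (X1 0 h2)).add (X1 1 h3)).add (X1 2 h4), u2.neg⟩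

/-- The Fricke–Vogt theorem with a degree bound. -/
theorem exists_tracePoly (L : List (Fin 2 × Bool)) : ∃ f : MvPolynomial (Fin 3) ℤ,
    IsTracePoly (FreeGroup.mk L) f ∧ Deg (2 * L.length + 1) f := by
  obtain ⟨al, be, ga, de, h, h1, h2, h3, h4⟩ := exists_rep L
  have hC : Deg 0 (2 : MvPolynomial (Fin 3) ℤ) := by
    have : (2 : MvPolynomial (Fin 3) ℤ) = C 2 := rfl
    rw [this, Deg, totalDegree_C]
  refine ⟨2 * al + X 0 * be + X 1 * ga + X 2 * de, ?_, ?_⟩
  · intro A B
    rw [tr, h A B]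
    simp only [Matrix.trace_add, Matrix.trace_smul, Matrix.trace_one, map_add, map_mul, aeval_X,
      Matrix.cons_val_zero, Matrix.cons_val_one, Matrix.cons_val]
    rw [← Matrix.SpecialLinearGroup.coe_mul]
    simp only [tr, smul_eq_mul, Fintype.card_fin, map_ofNat]
    push_cast
    ring
  · exact ((((hC.mul h1).mono (by omega)).add (((Deg.X 0).mul h2).mono (by omega))).add
      (((Deg.X 1).mul h3).mono (by omega))).add (((Deg.X 2).mul h4).mono (by omega))

/-- Existence in the Fricke–Vogt theorem. -/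
theorem frickeVogt (w : FreeGroup (Fin 2)) : ∃ f : MvPolynomial (Fin 3) ℤ, IsTracePoly w f := by
  obtain ⟨f, hf, -⟩ := exists_tracePoly w.toWord
  rw [FreeGroup.mk_toWord] at hf
  exact ⟨f, hf⟩

/-- The trace polynomial `f_w`. -/
noncomputable def tracePoly (w : FreeGroup (Fin 2)) : MvPolynomial (Fin 3) ℤ :=
  Classical.choose (frickeVogt w)

lemma tracePoly_spec (w : FreeGroup (Fin 2)) : IsTracePoly w (tracePoly w) :=
  Classical.choose_spec (frickeVogt w)

/-- The support size `N(w)`. -/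
noncomputable def N (w : FreeGroup (Fin 2)) : ℕ := (tracePoly w).support.card

/-- `M(n)`, the maximum of `N(w)` over the cyclically reduced words of length `n`. -/
noncomputable def M (n : ℕ) : ℕ :=
  sSup {k | ∃ L : List (Fin 2 × Bool), FreeGroup.IsCyclicallyReduced L ∧ L.length = n ∧
    k = N (FreeGroup.mk L)}

lemma card_support_le (f : MvPolynomial (Fin 3) ℤ) (d : ℕ) (hd : Deg d f) :
    f.support.card ≤ (d + 1) ^ 3 := by
  have h : f.support.card ≤ (Fintype.piFinset (fun _ : Fin 3 => Finset.range (d + 1))).card := by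
    apply Finset.card_le_card_of_injOn (fun e i => e i)
    · intro e he
      simp only [Finset.mem_coe, Fintype.mem_piFinset, Finset.mem_range]
      intro i
      have h1 := MvPolynomial.le_totalDegree (p := f) he
      have h2 : e i ≤ e.sum fun _ e => e := by
        rw [Finsupp.sum_fintype _ _ (by simp)]
        exact Finset.single_le_sum (f := fun i => e i) (fun _ _ => Nat.zero_le _)
          (Finset.mem_univ i)
      have h3 : f.totalDegree ≤ d := hd
      omega
    · intro e _ e' _ hee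
      exact Finsupp.ext fun i => congrFun hee i
  simpa using h

theorem N_le (L : List (Fin 2 × Bool)) : N (FreeGroup.mk L) ≤ (2 * L.length + 2) ^ 3 := by
  obtain ⟨f, hf, hd⟩ := exists_tracePoly L
  have : tracePoly (FreeGroup.mk L) = f := tracePoly_unique (tracePoly_spec _) hf
  rw [N, this]
  exact card_support_le f _ hd

/-! ### Polynomials with natural coefficients -/

/-- polynomials with natural coefficients -/
abbrev NP := MvPolynomial (Fin 3) ℕ

/-- the monomial `x^a y^b z^c` -/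
noncomputable def mon (a b c : ℕ) : Fin 3 →₀ ℕ := Finsupp.equivFunOnFinite.symm ![a, b, c]

lemma mon_add (a b c a' b' c' : ℕ) : mon a b c + mon a' b' c' = mon (a + a') (b + b') (c + c') := by
  ext i; fin_cases i <;> simp [mon]

lemma mon_zero : mon 0 0 0 = 0 := by
  ext i; fin_cases i <;> simp [mon]

lemma mon_inj {a b c a' b' c' : ℕ} (h : mon a b c = mon a' b' c') : a = a' ∧ b = b' ∧ c = c' := by
  have h0 := DFunLike.congr_fun h 0
  have h1 := DFunLike.congr_fun h 1
  have h2 := DFunLike.congr_fun h 2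
  simp [mon] at h0 h1 h2
  exact ⟨h0, h1, h2⟩

/-- the monomial `e` occurs in `p` -/
def Has (e : Fin 3 →₀ ℕ) (p : NP) : Prop := p.coeff e ≠ 0

lemma Has.addl {e : Fin 3 →₀ ℕ} {p q : NP} (h : Has e p) : Has e (p + q) := by
  unfold Has at *; rw [coeff_add]; omega
lemma Has.addr {e : Fin 3 →₀ ℕ} {p q : NP} (h : Has e q) : Has e (p + q) := by
  unfold Has at *; rw [coeff_add]; omega
lemma Has.mul {e e' : Fin 3 →₀ ℕ} {p q : NP} (h : Has e p) (h' : Has e' q) :
    Has (e + e') (p * q) := by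
  unfold Has at *
  rw [coeff_mul]
  intro h0
  rw [Finset.sum_eq_zero_iff] at h0
  have := h0 (e, e') (by simp)
  exact (mul_ne_zero h h') this
lemma has_X0 : Has (mon 1 0 0) (X 0) := by
  have : mon 1 0 0 = Finsupp.single 0 1 := by ext i; fin_cases i <;> simp [mon]
  rw [Has, this]; simp
lemma has_X1 : Has (mon 0 1 0) (X 1) := by
  have : mon 0 1 0 = Finsupp.single 1 1 := by ext i; fin_cases i <;> simp [mon]
  rw [Has, this]; simp
lemma has_X2 : Has (mon 0 0 1) (X 2) := by
  have : mon 0 0 1 = Finsupp.single 2 1 := by ext i; fin_cases i <;> simp [mon]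
  rw [Has, this]; simp

/-- `u = xyz + x² + y²` -/
noncomputable def u : NP := X 0 * X 1 * X 2 + X 0 * X 0 + X 1 * X 1

lemma u1 : Has (mon 1 1 1) u := by
  have := (has_X0.mul has_X1).mul has_X2
  rw [mon_add, mon_add] at this
  exact (this.addl (q := X 0 * X 0)).addl
lemma u2 : Has (mon 2 0 0) u := by
  have := has_X0.mul has_X0
  rw [mon_add] at this
  exact (this.addr (p := X 0 * X 1 * X 2)).addl
lemma u3 : Has (mon 0 2 0) u := by
  have := has_X1.mul has_X1
  rw [mon_add] at this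
  exact this.addr

/-- the pair recursion -/
noncomputable def bd (s : NP × NP) : ℕ → NP × NP
  | 0 => s
  | m + 1 => ((bd s m).1 + (bd s m).2, (bd s m).2 + u * ((bd s m).1 + (bd s m).2))

/-- support of the pair recursion: `q = x^j`. -/
lemma bd_has (s : NP × NP) (j : ℕ) (h1 : Has (mon j 0 0) s.1)
    (h2 : ∀ a b c, Has (mon a b c) u → Has (mon (a + j) b c) s.2) (m : ℕ) :
    (∀ A B C, A + B + C ≤ m → Has (mon (A + 2 * B + j) (A + 2 * C) A) (bd s m).1) ∧
    (∀ A B C a b c, A + B + C ≤ m → Has (mon a b c) u →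
      Has (mon (A + 2 * B + j + a) (A + 2 * C + b) (A + c)) (bd s m).2) := by
  induction m with
  | zero =>
    constructor
    · intro A B C h
      obtain ⟨rfl, rfl, rfl⟩ : A = 0 ∧ B = 0 ∧ C = 0 := by omega
      simpa [bd] using h1
    · intro A B C a b c h hu
      obtain ⟨rfl, rfl, rfl⟩ : A = 0 ∧ B = 0 ∧ C = 0 := by omega
      have := h2 a b c hu
      simpa [bd, add_comm] using this
  | succ m ih =>
    obtain ⟨i1, i2⟩ := ih
    have k1 : ∀ A B C, A + B + C ≤ m + 1 →
        Has (mon (A + 2 * B + j) (A + 2 * C) A) ((bd s m).1 + (bd s m).2) := by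
      intro A B C h
      rcases Nat.eq_zero_or_pos A with hA | hA
      · rcases Nat.eq_zero_or_pos B with hB | hB
        · rcases Nat.eq_zero_or_pos C with hC | hC
          · subst hA; subst hB; subst hC
            exact (i1 0 0 0 (by omega)).addl
          · have := i2 A B (C - 1) 0 2 0 (by omega) u3
            have e : mon (A + 2 * B + j + 0) (A + 2 * (C - 1) + 2) (A + 0) =
                mon (A + 2 * B + j) (A + 2 * C) A := by
              congr 1
              omega
            rw [e] at this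
            exact this.addr
        · have := i2 A (B - 1) C 2 0 0 (by omega) u2
          have e : mon (A + 2 * (B - 1) + j + 2) (A + 2 * C + 0) (A + 0) =
              mon (A + 2 * B + j) (A + 2 * C) A := by
            congr 1
            omega
          rw [e] at this
          exact this.addr
      · have := i2 (A - 1) B C 1 1 1 (by omega) u1
        have e : mon (A - 1 + 2 * B + j + 1) (A - 1 + 2 * C + 1) (A - 1 + 1) =
            mon (A + 2 * B + j) (A + 2 * C) A := by
          congr 1 <;> omega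
        rw [e] at this
        exact this.addr
    refine ⟨k1, ?_⟩
    intro A B C a b c h hu
    have := hu.mul (k1 A B C h)
    rw [mon_add] at this
    have e : mon (a + (A + 2 * B + j)) (b + (A + 2 * C)) (c + A) =
        mon (A + 2 * B + j + a) (A + 2 * C + b) (A + c) := by
      congr 1 <;> omega
    rw [e] at this
    exact this.addr

/-- start for `tr P^m` -/
noncomputable def s0 : NP × NP := (2, u)
/-- start for `tr P^m a` -/
noncomputable def s1 : NP × NP := (X 0, 2 * X 0 + X 1 * X 2 + u * X 0)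

/-- the polynomials `G_{m,r}` -/
noncomputable def G (m : ℕ) : ℕ → NP
  | 0 => (bd s0 m).1
  | 1 => (bd s1 m).1
  | r + 2 => X 0 * G m (r + 1) + G m r

lemma has_two : Has (mon 0 0 0) (2 : NP) := by
  rw [mon_zero, Has]
  have : (2 : NP) = C 2 := rfl
  rw [this, coeff_C]; simp

lemma G_even (m : ℕ) (r : ℕ) {A B C : ℕ} (h : A + B + C ≤ m) :
    Has (mon (A + 2 * B) (A + 2 * C) A) (G m (2 * r)) ∧
    Has (mon (A + 2 * B + 1) (A + 2 * C) A) (G m (2 * r + 1)) := by
  induction r with
  | zero =>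
    constructor
    · exact (bd_has s0 0 has_two (fun a b c h => h) m).1 A B C h
    · exact (bd_has s1 1 has_X0 (fun a b c h => by
        have := h.mul has_X0
        rw [mon_add] at this
        exact this.addr) m).1 A B C h
  | succ r ih =>
    constructor
    · exact ih.1.addr
    · exact ih.2.addr

/-! ### The words `(a²b²)^m a^r` -/

/-- the letters of `(a²b²)^m` -/
def pl : ℕ → List (Fin 2 × Bool)
  | 0 => []
  | m + 1 => (0, true) :: (0, true) :: (1, true) :: (1, true) :: pl m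

lemma pl_length (m : ℕ) : (pl m).length = 4 * m := by
  induction m with
  | zero => rfl
  | succ m ih => simp only [pl, List.length_cons, ih]; ring

lemma pl_pos (m : ℕ) : ∀ x ∈ pl m, x.2 = true := by
  induction m with
  | zero => simp [pl]
  | succ m ih =>
    intro x hx
    simp only [pl, List.mem_cons] at hx
    rcases hx with rfl | rfl | rfl | rfl | hx
    · rfl
    · rfl
    · rfl
    · rfl
    · exact ih x hx

/-- the letters of the word `(a²b²)^m a^r` -/
def wl (m r : ℕ) : List (Fin 2 × Bool) := pl m ++ List.replicate r (0, true)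

lemma wl_pos (m r : ℕ) : ∀ x ∈ wl m r, x.2 = true := by
  intro x hx
  rcases List.mem_append.1 hx with h | h
  · exact pl_pos m x h
  · rw [List.eq_of_mem_replicate h]

lemma wl_length (m r : ℕ) : (wl m r).length = 4 * m + r := by
  simp [wl, pl_length]

lemma cyc_of_pos {L : List (Fin 2 × Bool)} (h : ∀ x ∈ L, x.2 = true) :
    FreeGroup.IsCyclicallyReduced L := by
  constructor
  · unfold FreeGroup.IsReduced
    apply List.Pairwise.isChain
    rw [List.pairwise_iff_forall_sublist]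
    intro a b hab _
    rw [h a (hab.subset (by simp)), h b (hab.subset (by simp))]
  · intro a ha b hb _
    rw [h a (List.mem_of_mem_getLast? ha), h b (List.mem_of_mem_head? hb)]

lemma lift_wl (A B : SL) (m r : ℕ) :
    FreeGroup.lift ![A, B] (FreeGroup.mk (wl m r)) = (A * A * (B * B)) ^ m * A ^ r := by
  induction m with
  | zero =>
    simp only [wl, pl, List.nil_append, pow_zero, one_mul]
    induction r with
    | zero => simp [← FreeGroup.one_eq_mk]
    | succ r ih =>
      rw [List.replicate_succ, lift_cons, ih, pow_succ']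
      simp
  | succ m ih =>
    have : wl (m + 1) r = (0, true) :: (0, true) :: (1, true) :: (1, true) :: wl m r := rfl
    rw [this, lift_cons, lift_cons, lift_cons, lift_cons, ih, pow_succ']
    simp only [cond_true, Matrix.cons_val_zero, Matrix.cons_val_one]
    group

lemma tr_sq_mul (A C : SL) : tr (A * A * C) = tr A * tr (A * C) - tr C := by
  have h : (A * A * C).1 = tr A • (A * C).1 - C.1 := by
    rw [Matrix.SpecialLinearGroup.coe_mul, Matrix.SpecialLinearGroup.coe_mul, ch,
      Matrix.SpecialLinearGroup.coe_mul, sub_mul, one_mul, Matrix.smul_mul]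
  rw [tr, h, Matrix.trace_sub, Matrix.trace_smul]
  rfl

lemma tr_comm (A B : SL) : tr (A * B) = tr (B * A) := by
  rw [tr, tr, Matrix.SpecialLinearGroup.coe_mul, Matrix.SpecialLinearGroup.coe_mul,
    Matrix.trace_mul_comm]

lemma tr_one : tr 1 = 2 := by
  simp [tr]

/-- `q m r = tr((A²B²)^m A^r)` -/
noncomputable def q (A B : SL) (m r : ℕ) : ℂ := tr ((A * A * (B * B)) ^ m * A ^ r)

lemma q_m (A B : SL) (m r : ℕ) :
    q A B (m + 2) r = tr (A * A * (B * B)) * q A B (m + 1) r - q A B m r := by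
  have h := tr_sq_mul (A * A * (B * B)) ((A * A * (B * B)) ^ m * A ^ r)
  have e1 : (A * A * (B * B)) ^ (m + 2) * A ^ r =
      A * A * (B * B) * (A * A * (B * B)) * ((A * A * (B * B)) ^ m * A ^ r) := by
    rw [pow_succ', pow_succ']; simp only [mul_assoc]
  have e2 : (A * A * (B * B)) ^ (m + 1) * A ^ r =
      A * A * (B * B) * ((A * A * (B * B)) ^ m * A ^ r) := by
    rw [pow_succ']; simp only [mul_assoc]
  rw [q, e1, h, q, e2, q]

lemma q_r (A B : SL) (m r : ℕ) :
    q A B m (r + 2) = tr A * q A B m (r + 1) - q A B m r := by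
  have h := tr_sq_mul A (A ^ r * (A * A * (B * B)) ^ m)
  have e1 : tr ((A * A * (B * B)) ^ m * A ^ (r + 2)) =
      tr (A * A * (A ^ r * (A * A * (B * B)) ^ m)) := by
    rw [tr_comm, pow_succ', pow_succ']; simp only [mul_assoc]
  have e2 : tr ((A * A * (B * B)) ^ m * A ^ (r + 1)) =
      tr (A * (A ^ r * (A * A * (B * B)) ^ m)) := by
    rw [tr_comm, pow_succ']; simp only [mul_assoc]
  have e3 : tr ((A * A * (B * B)) ^ m * A ^ r) =
      tr (A ^ r * (A * A * (B * B)) ^ m) := tr_comm _ _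
  rw [q, e1, h, q, e2, q, e3]

lemma tr_AABB (A B : SL) : tr (A * A * (B * B)) =
    tr A * tr B * tr (A * B) - tr A ^ 2 - tr B ^ 2 + 2 := by
  have h1 : tr (A * (B * B)) = tr B * tr (A * B) - tr A := by
    rw [tr_comm, tr_sq_mul, tr_comm B A]
  have h2 : tr (B * B) = tr B * tr B - 2 := by
    have := tr_sq_mul B 1
    rw [mul_one, mul_one, tr_one] at this
    exact this
  rw [tr_sq_mul, h1, h2]
  ring

lemma q00 (A B : SL) : q A B 0 0 = 2 := by simp [q, tr_one]
lemma q01 (A B : SL) : q A B 0 1 = tr A := by simp [q]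
lemma q10 (A B : SL) : q A B 1 0 = tr (A * A * (B * B)) := by simp [q]
lemma q11 (A B : SL) : q A B 1 1 = tr A * tr (A * A * (B * B)) + tr A - tr B * tr (A * B) := by
  have e : tr ((A * A * (B * B)) ^ 1 * A ^ 1) = tr (A * A * (A * (B * B))) := by
    rw [tr_comm]; simp only [pow_one, mul_assoc]
  have h1 : tr (A * (B * B)) = tr B * tr (A * B) - tr A := by
    rw [tr_comm, tr_sq_mul, tr_comm B A]
  have h2 : tr (A * (A * (B * B))) = tr (A * A * (B * B)) := by rw [mul_assoc A A]
  rw [q, e, tr_sq_mul, h2, h1]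
  ring

/-- evaluation of natural polynomials -/
noncomputable def E (v : Fin 3 → ℂ) (p : NP) : ℂ := MvPolynomial.aeval v p

lemma E_add (v : Fin 3 → ℂ) (p p' : NP) : E v (p + p') = E v p + E v p' := by simp [E]
lemma E_mul (v : Fin 3 → ℂ) (p p' : NP) : E v (p * p') = E v p * E v p' := by simp [E]
lemma E_X (v : Fin 3 → ℂ) (i : Fin 3) : E v (X i) = v i := by simp [E]
lemma E_two (v : Fin 3 → ℂ) : E v 2 = 2 := by simp [E]

lemma E_bd (v : Fin 3 → ℂ) (s : NP × NP) (κ : ℂ) (f : ℕ → ℂ) (h0 : f 0 = κ * E v s.1)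
    (h1 : f 1 - f 0 = κ * E v s.2) (hrec : ∀ m, f (m + 2) = (2 + E v u) * f (m + 1) - f m)
    (m : ℕ) : f m = κ * E v (bd s m).1 ∧ f (m + 1) - f m = κ * E v (bd s m).2 := by
  induction m with
  | zero => exact ⟨h0, h1⟩
  | succ m ih =>
    obtain ⟨i1, i2⟩ := ih
    have k : f (m + 1) = κ * E v (bd s (m + 1)).1 := by
      simp only [bd, E_add]
      linear_combination i1 + i2
    refine ⟨k, ?_⟩
    have k' : E v (bd s (m + 1)).2 = E v (bd s m).2 + E v u * E v (bd s (m + 1)).1 := by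
      simp only [bd, E_add, E_mul]
    rw [k', hrec]
    linear_combination E v u * k + i2

lemma I_sq : Complex.I * Complex.I = -1 := Complex.I_mul_I

lemma q_eq (A B : SL) (v : Fin 3 → ℂ) (h0 : tr A = Complex.I * v 0) (h1 : tr B = Complex.I * v 1)
    (h2 : tr (A * B) = - v 2) (m r : ℕ) :
    q A B m r = Complex.I ^ r * E v (G m r) ∧
      q A B m (r + 1) = Complex.I ^ (r + 1) * E v (G m (r + 1)) := by
  have hu : tr (A * A * (B * B)) = 2 + E v u := by
    rw [tr_AABB, h0, h1, h2]
    simp only [u, E_add, E_mul, E_X]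
    linear_combination (-(v 0 * v 1 * v 2) - v 0 ^ 2 - v 1 ^ 2) * I_sq
  induction r with
  | zero =>
    constructor
    · have := (E_bd v s0 1 (fun m => q A B m 0) (by simp [q00, s0, E_two])
        (by simp only [q10, q00, s0, hu]; ring) (fun m => by
          simp only [q_m, hu]) m).1
      simpa [G] using this
    · have := (E_bd v s1 Complex.I (fun m => q A B m 1) (by simp [q01, s1, E_X, h0])
        (by
          simp only [q11, q01, s1, hu, h0, h1, h2, E_add, E_mul, E_X, E_two]; ring) (fun m => by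
          simp only [q_m, hu]) m).1
      simpa [G] using this
  | succ r ih =>
    refine ⟨ih.2, ?_⟩
    rw [q_r, ih.1, ih.2, h0]
    simp only [G, E_add, E_mul, E_X]
    linear_combination (-(Complex.I ^ r) * E v (G m r)) * I_sq

lemma coeff_scale (c : Fin 3 → ℂ) (p : MvPolynomial (Fin 3) ℂ) (e : Fin 3 →₀ ℕ) :
    coeff e (aeval (fun i => C (c i) * X i : Fin 3 → MvPolynomial (Fin 3) ℂ) p) =
      (∏ i, c i ^ e i) * coeff e p := by
  induction p using MvPolynomial.induction_on' with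
  | monomial s a =>
    rw [aeval_monomial, Finsupp.prod_fintype _ _ (by simp)]
    simp only [mul_pow, Finset.prod_mul_distrib, ← C_pow]
    rw [← map_prod, ← mul_assoc, algebraMap_eq, ← C_mul]
    have : (∏ i, X i ^ s i : MvPolynomial (Fin 3) ℂ) = monomial s 1 := by
      rw [monomial_eq, Finsupp.prod_fintype _ _ (by simp)]; simp
    rw [this, C_mul_monomial, coeff_monomial, coeff_monomial]
    split_ifs with h
    · subst h; ring
    · ring
  | add p p' hp hp' => rw [map_add, coeff_add, coeff_add, hp, hp']; ring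

lemma coeff_ne (m r : ℕ) (e : Fin 3 →₀ ℕ) (h : Has e (G m r)) :
    coeff e (tracePoly (FreeGroup.mk (wl m r))) ≠ 0 := by
  set f := tracePoly (FreeGroup.mk (wl m r)) with hf
  set c : Fin 3 → ℂ := ![Complex.I, Complex.I, -1] with hc
  have key : aeval (fun i => C (c i) * X i : Fin 3 → MvPolynomial (Fin 3) ℂ)
      (map (Int.castRingHom ℂ) f) =
      C (Complex.I ^ r) * map (Nat.castRingHom ℂ) (G m r) := by
    apply MvPolynomial.funext
    intro v
    obtain ⟨A, B, h0, h1, h2⟩ := exists_traces (Complex.I * v 0) (Complex.I * v 1) (- v 2)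
    have e1 := tracePoly_spec (FreeGroup.mk (wl m r)) A B
    rw [lift_wl] at e1
    have e2 := (q_eq A B v h0 h1 h2 m r).1
    have e3 : eval v (aeval (fun i => C (c i) * X i : Fin 3 → MvPolynomial (Fin 3) ℂ)
        (map (Int.castRingHom ℂ) f)) = aeval ![tr A, tr B, tr (A * B)] f := by
      have : (eval v : MvPolynomial (Fin 3) ℂ →+* ℂ).comp
        ((aeval (fun i => C (c i) * X i : Fin 3 → MvPolynomial (Fin 3) ℂ) :
          MvPolynomial (Fin 3) ℂ →ₐ[ℂ] MvPolynomial (Fin 3) ℂ).toRingHom.comp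
          (map (Int.castRingHom ℂ))) =
          (aeval ![tr A, tr B, tr (A * B)] : MvPolynomial (Fin 3) ℤ →ₐ[ℤ] ℂ).toRingHom := by
        apply MvPolynomial.ringHom_ext
        · intro n; simp
        · intro i
          fin_cases i <;> simp [hc, h0, h1, h2]
      exact congrArg (fun φ : MvPolynomial (Fin 3) ℤ →+* ℂ => φ f) this
    rw [e3]
    rw [← hf] at e1
    rw [← e1]
    have e4 : tr ((A * A * (B * B)) ^ m * A ^ r) = q A B m r := rfl
    rw [e4, e2]
    simp [E, aeval_def, eval_map]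
    rfl
  intro h0
  have h1 := congrArg (coeff e) key
  rw [coeff_scale, coeff_map, h0, coeff_C_mul, coeff_map] at h1
  simp only [map_zero, mul_zero] at h1
  have h2 : (Complex.I ^ r : ℂ) ≠ 0 := pow_ne_zero _ Complex.I_ne_zero
  have h3 : ((coeff e (G m r) : ℕ) : ℂ) ≠ 0 := by exact_mod_cast h
  exact (mul_ne_zero h2 h3) h1.symm

lemma G_has (m r : ℕ) {A B C : ℕ} (h : A + B + C ≤ m) :
    Has (mon (A + 2 * B + r % 2) (A + 2 * C) A) (G m r) := by
  rcases Nat.mod_two_eq_zero_or_one r with hr | hr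
  · obtain ⟨s, rfl⟩ : ∃ s, r = 2 * s := ⟨r / 2, by omega⟩
    rw [hr]
    exact (G_even m s h).1
  · obtain ⟨s, rfl⟩ : ∃ s, r = 2 * s + 1 := ⟨r / 2, by omega⟩
    rw [hr]
    exact (G_even m s h).2

lemma N_ge (m r k : ℕ) (hk : 3 * k ≤ m) : (k + 1) ^ 3 ≤ N (FreeGroup.mk (wl m r)) := by
  have h : (Finset.range (k + 1) ×ˢ (Finset.range (k + 1) ×ˢ Finset.range (k + 1))).card ≤
      (tracePoly (FreeGroup.mk (wl m r))).support.card := by
    apply Finset.card_le_card_of_injOn
      (fun t => mon (t.1 + 2 * t.2.1 + r % 2) (t.1 + 2 * t.2.2) t.1)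
    · rintro ⟨A, B, C⟩ ht
      simp only [Finset.coe_product, Set.mem_prod, Finset.coe_range, Set.mem_Iio] at ht
      simp only [Finset.mem_coe, mem_support_iff]
      exact coeff_ne m r _ (G_has m r (by omega))
    · rintro ⟨A, B, C⟩ _ ⟨A', B', C'⟩ _ h
      obtain ⟨h1, h2, h3⟩ := mon_inj h
      simp only at h1 h2 h3
      simp only [Prod.mk.injEq]
      omega
  rw [Finset.card_product, Finset.card_product, Finset.card_range] at h
  calc (k + 1) ^ 3 = (k + 1) * ((k + 1) * (k + 1)) := by ring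
    _ ≤ _ := h

lemma bdd (n : ℕ) : BddAbove {k | ∃ L : List (Fin 2 × Bool), FreeGroup.IsCyclicallyReduced L ∧
    L.length = n ∧ k = N (FreeGroup.mk L)} := by
  refine ⟨(2 * n + 2) ^ 3, ?_⟩
  rintro k ⟨L, -, rfl, rfl⟩
  exact N_le L

lemma nonempty (n : ℕ) : {k | ∃ L : List (Fin 2 × Bool), FreeGroup.IsCyclicallyReduced L ∧
    L.length = n ∧ k = N (FreeGroup.mk L)}.Nonempty := by
  refine ⟨_, wl (n / 4) (n % 4), cyc_of_pos (wl_pos _ _), ?_, rfl⟩
  rw [wl_length]; omega

/-- **Answer to Q1**: `M(n) = Θ(n³)`. -/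
theorem result : ∃ c C : ℝ, 0 < c ∧ 0 < C ∧ ∀ n : ℕ, 1 ≤ n →
    c * (n : ℝ) ^ 3 ≤ (M n : ℝ) ∧ (M n : ℝ) ≤ C * (n : ℝ) ^ 3 := by
  refine ⟨1 / 1728, 64, by norm_num, by norm_num, fun n hn => ⟨?_, ?_⟩⟩
  · have h1 : (n / 12 + 1) ^ 3 ≤ M n := by
      refine le_trans (N_ge (n / 4) (n % 4) (n / 12) (by omega)) ?_
      apply le_csSup (bdd n)
      refine ⟨wl (n / 4) (n % 4), cyc_of_pos (wl_pos _ _), ?_, rfl⟩
      rw [wl_length]; omega
    have h2 : (((n / 12 : ℕ) : ℝ) + 1) ^ 3 ≤ (M n : ℝ) := by exact_mod_cast h1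
    have h3 : (n : ℝ) / 12 ≤ ((n / 12 : ℕ) : ℝ) + 1 := by
      have : n ≤ 12 * (n / 12 + 1) := by omega
      have : (n : ℝ) ≤ 12 * (((n / 12 : ℕ) : ℝ) + 1) := by exact_mod_cast this
      linarith
    have h4 : ((n : ℝ) / 12) ^ 3 ≤ (((n / 12 : ℕ) : ℝ) + 1) ^ 3 :=
      pow_le_pow_left₀ (by positivity) h3 3
    calc (1 / 1728 : ℝ) * (n : ℝ) ^ 3 = ((n : ℝ) / 12) ^ 3 := by ring
      _ ≤ _ := h4.trans h2
  · have h1 : M n ≤ (2 * n + 2) ^ 3 := by
      apply csSup_le (nonempty n)
      rintro k ⟨L, -, rfl, rfl⟩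
      exact N_le L
    have h2 : M n ≤ 64 * n ^ 3 := by
      refine h1.trans ?_
      calc (2 * n + 2) ^ 3 ≤ (4 * n) ^ 3 := Nat.pow_le_pow_left (by omega) 3
        _ = 64 * n ^ 3 := by ring
    exact_mod_cast h2

end Pool.Agent.Results.MP_81f2fa_al.CubicSupport
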